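import Pool.Agent.H706R2.Mah.Defs

/-! T4: the Gaussian integral on `E × E` (helper512). -/

namespace Pool.Agent.H706R2.Mah

open MeasureTheory Real Set Filter Topology
open scoped RealInnerProductSpace ENNReal

theorem t4_rpow_half {x : ℝ} (hx : 0 ≤ x) (n : ℕ) : x ^ ((n : ℝ) / 2) = (√x) ^ n := by
  rw [Real.sqrt_eq_rpow, ← Real.rpow_natCast, ← Real.rpow_mul hx]
  congr 1
  ring

theorem t4_cpow_half {x : ℝ} (hx : 0 ≤ x) (n : ℕ) :
    (x : ℂ) ^ ((n : ℂ) / 2) = (((√x) ^ n : ℝ) : ℂ) := by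
  rw [← t4_rpow_half hx, Complex.ofReal_cpow hx]
  push_cast
  rfl

theorem t4_integrable_real (n : ℕ) {b : ℝ} (hb : 0 < b) :
    Integrable (fun v : E n => Real.exp (-b * ‖v‖ ^ 2)) := by
  have h := (GaussianFourier.integrable_cexp_neg_mul_sq_norm_add (V := E n) (b := (b : ℂ))
    (by simpa using hb) 0 0).norm
  refine h.congr (Filter.Eventually.of_forall fun v => ?_)
  simp only [Complex.norm_exp]
  congr 1
  simp [← Complex.ofReal_pow]

/-- T4. The Gaussian integral on `E × E`. -/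
theorem T4_gauss (n : ℕ) {ε : ℝ} (hε : 0 < ε) :
    Integrable (fun ω : E n × E n => Complex.exp
      (-((ε : ℂ) / 2) * ((‖ω.1‖ ^ 2 + ‖ω.2‖ ^ 2 : ℝ) : ℂ) + Complex.I * ((⟪ω.1, ω.2⟫ : ℝ) : ℂ))) ∧
    ∫ ω : E n × E n, Complex.exp
      (-((ε : ℂ) / 2) * ((‖ω.1‖ ^ 2 + ‖ω.2‖ ^ 2 : ℝ) : ℂ) + Complex.I * ((⟪ω.1, ω.2⟫ : ℝ) : ℂ))
      = (((2 * π) ^ n / (√(1 + ε ^ 2)) ^ n : ℝ) : ℂ) := by
  have hint : Integrable (fun ω : E n × E n => Complex.exp
      (-((ε : ℂ) / 2) * ((‖ω.1‖ ^ 2 + ‖ω.2‖ ^ 2 : ℝ) : ℂ) +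
        Complex.I * ((⟪ω.1, ω.2⟫ : ℝ) : ℂ))) := by
    have h1 := t4_integrable_real n (half_pos hε)
    have h2 := h1.mul_prod h1
    rw [← Measure.volume_eq_prod] at h2
    refine h2.mono' (Continuous.aestronglyMeasurable (by fun_prop)) ?_
    refine Filter.Eventually.of_forall fun ω => ?_
    rw [Complex.norm_exp, ← Real.exp_add]
    apply le_of_eq
    congr 1
    simp only [Complex.add_re, Complex.mul_re, Complex.I_re, Complex.I_im, Complex.ofReal_re,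
      Complex.ofReal_im, Complex.neg_re, Complex.neg_im, zero_mul, one_mul, mul_zero, sub_zero]
    have e1 : ((ε : ℂ) / 2).re = ε / 2 := by simp
    rw [e1]
    ring
  refine ⟨hint, ?_⟩
  rw [Measure.volume_eq_prod] at hint ⊢
  rw [integral_prod _ hint]
  have hinner : ∀ x : E n, ∫ y : E n, Complex.exp
      (-((ε : ℂ) / 2) * ((‖x‖ ^ 2 + ‖y‖ ^ 2 : ℝ) : ℂ) + Complex.I * ((⟪x, y⟫ : ℝ) : ℂ)) =
      (((√(π / (ε / 2))) ^ n : ℝ) : ℂ) *
        Complex.exp (-(((ε / 2 + 1 / (2 * ε)) : ℝ) : ℂ) * (‖x‖ : ℂ) ^ 2) := by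
    intro x
    have h1 := GaussianFourier.integral_cexp_neg_mul_sq_norm_add (V := E n)
      (b := ((ε / 2 : ℝ) : ℂ)) (by simpa using hε) Complex.I x
    have h2 : ∀ y : E n, Complex.exp
      (-((ε : ℂ) / 2) * ((‖x‖ ^ 2 + ‖y‖ ^ 2 : ℝ) : ℂ) + Complex.I * ((⟪x, y⟫ : ℝ) : ℂ)) =
      Complex.exp (-((ε / 2 : ℝ) : ℂ) * (‖x‖ : ℂ) ^ 2) * Complex.exp
        (-((ε / 2 : ℝ) : ℂ) * (‖y‖ : ℂ) ^ 2 + Complex.I * ((⟪x, y⟫ : ℝ) : ℂ)) := by
      intro y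
      rw [← Complex.exp_add]
      congr 1
      push_cast
      ring
    simp_rw [h2]
    rw [integral_const_mul, h1, finrank_euclideanSpace_fin]
    have h3 : ((π : ℂ) / ((ε / 2 : ℝ) : ℂ)) = ((π / (ε / 2) : ℝ) : ℂ) := by push_cast; rfl
    rw [h3, t4_cpow_half (by positivity), mul_left_comm, ← Complex.exp_add]
    congr 2
    have hεc : (ε : ℂ) ≠ 0 := by exact_mod_cast hε.ne'
    rw [Complex.I_sq]
    push_cast
    field_simp
    ring
  simp_rw [hinner]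
  rw [integral_const_mul, GaussianFourier.integral_cexp_neg_mul_sq_norm (V := E n)
    (b := (((ε / 2 + 1 / (2 * ε)) : ℝ) : ℂ)) (by
      rw [Complex.ofReal_re]; positivity), finrank_euclideanSpace_fin]
  have h3 : ((π : ℂ) / ((ε / 2 + 1 / (2 * ε) : ℝ) : ℂ)) = ((π / (ε / 2 + 1 / (2 * ε)) : ℝ) : ℂ) := by
    push_cast; rfl
  rw [h3, t4_cpow_half (by positivity), ← Complex.ofReal_mul, ← mul_pow, ← div_pow,
    ← Real.sqrt_mul (by positivity)]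
  congr 2
  have h4 : π / (ε / 2) * (π / (ε / 2 + 1 / (2 * ε))) = (2 * π / √(1 + ε ^ 2)) ^ 2 := by
    rw [div_pow, Real.sq_sqrt (by positivity)]
    field_simp
    ring
  rw [h4, Real.sqrt_sq (by positivity)]

end Pool.Agent.H706R2.Mah
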