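import Pool.Agent.H512R3.Mah.T4
import Pool.Agent.H706R2.Mah.T1

/-! T5: the real regime, change of variables (helper512). -/

namespace Pool.Agent.H706R2.Mah

open MeasureTheory Real Set Filter Topology
open scoped RealInnerProductSpace ENNReal

variable {n : ℕ} {ι : Type} [Fintype ι]

/-- the Gaussian kernel -/
noncomputable def t5F (ε : ℝ) (ξ η : E n) : ℂ :=
  Complex.exp (-((ε : ℂ) / 2) * ((‖ξ‖ ^ 2 + ‖η‖ ^ 2 : ℝ) : ℂ) + Complex.I * ((⟪ξ, η⟫ : ℝ) : ℂ))

/-- the real determinant -/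
noncomputable def t5det (A : E n → Mat n) (a b k : ι → ℝ) (x y : E n) : ℝ :=
  (∑ l, k l • A (pt a b x y l)).det

theorem t5_phase (ε κ : ℝ) (g : E n → E n) (a b : ι → ℝ) (x y : E n) :
    Complex.exp (phase ε g a b (κ * Complex.I) x y) =
      t5F ε (Real.exp (-κ / 2) • x - Real.exp (κ / 2) • y)
        (Real.exp (-κ / 2) • Gx g a b x y + Real.exp (κ / 2) • Gy g a b x y) := by
  set p := Real.exp (-κ / 2) with hp
  set q := Real.exp (κ / 2) with hq
  have hpq : p * q = 1 := by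
    rw [hp, hq, ← Real.exp_add]; simp [neg_div]
  have hpp : p * p = Real.exp (-κ) := by
    rw [hp, ← Real.exp_add]; congr 1; ring
  have hqq : q * q = Real.exp κ := by
    rw [hq, ← Real.exp_add]; congr 1; ring
  have e1 : Complex.exp (Complex.I * (κ * Complex.I)) = ((p * p : ℝ) : ℂ) := by
    rw [hpp, Complex.ofReal_exp]
    congr 1
    push_cast
    linear_combination (κ : ℂ) * Complex.I_mul_I
  have e2 : Complex.exp (-(Complex.I * (κ * Complex.I))) = ((q * q : ℝ) : ℂ) := by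
    rw [hqq, Complex.ofReal_exp]
    congr 1
    linear_combination -(κ : ℂ) * Complex.I_mul_I
  have n1 : ‖p • x - q • y‖ ^ 2 = p * p * ‖x‖ ^ 2 - 2 * ⟪x, y⟫ + q * q * ‖y‖ ^ 2 := by
    rw [norm_sub_sq_real, norm_smul, norm_smul, inner_smul_left, inner_smul_right, mul_pow,
      mul_pow, Real.norm_eq_abs, Real.norm_eq_abs, sq_abs, sq_abs]
    simp only [conj_trivial]
    linear_combination (-2 * ⟪x, y⟫) * hpq
  have n2 : ∀ u v : E n, ‖p • u + q • v‖ ^ 2 = p * p * ‖u‖ ^ 2 + 2 * ⟪u, v⟫ + q * q * ‖v‖ ^ 2 := by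
    intro u v
    rw [norm_add_sq_real, norm_smul, norm_smul, inner_smul_left, inner_smul_right, mul_pow,
      mul_pow, Real.norm_eq_abs, Real.norm_eq_abs, sq_abs, sq_abs]
    simp only [conj_trivial]
    linear_combination (2 * ⟪u, v⟫) * hpq
  have n3 : ∀ u v : E n, ⟪p • x - q • y, p • u + q • v⟫ =
      p * p * ⟪x, u⟫ - q * q * ⟪y, v⟫ + (⟪x, v⟫ - ⟪y, u⟫) := by
    intro u v
    simp only [inner_sub_left, inner_add_right, inner_smul_left, inner_smul_right, conj_trivial]
    linear_combination (⟪x, v⟫ - ⟪y, u⟫) * hpq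
  rw [t5F, phase, e1, e2, n1, n2, n3]
  congr 1
  push_cast
  ring

theorem t5_det (κ : ℝ) (A : E n → Mat n) (a b : ι → ℝ) (x y : E n) :
    detf A a b (κ * Complex.I) x y =
      ((t5det A a b (fun l => a l ^ 2 + b l ^ 2 + 2 * Real.cosh κ * (a l * b l)) x y : ℝ) : ℂ) := by
  have e1 : Complex.cos (κ * Complex.I) = ((Real.cosh κ : ℝ) : ℂ) := by
    rw [Complex.cos_mul_I, Complex.ofReal_cosh]
  rw [detf, t5det, e1]
  have h := (Complex.ofRealHom).map_det (∑ l, (a l ^ 2 + b l ^ 2 + 2 * Real.cosh κ * (a l * b l)) •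
    A (pt a b x y l))
  rw [Complex.ofRealHom_eq_coe] at h
  rw [h]
  congr 1
  ext i j
  simp only [Matrix.sum_apply, Matrix.smul_apply, Matrix.map_apply, RingHom.mapMatrix_apply,
    Complex.ofRealHom_eq_coe, smul_eq_mul, Complex.ofReal_sum, Complex.ofReal_mul]
  refine Finset.sum_congr rfl fun l _ => ?_
  push_cast
  ring


theorem t5_det_cont {A : E n → Mat n} (hA : Continuous A) (a b k : ι → ℝ) :
    Continuous fun ω : E n × E n => t5det A a b k ω.1 ω.2 := by
  have h1 : ∀ l, Continuous fun ω : E n × E n => a l • ω.1 + b l • ω.2 := fun l => by fun_prop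
  have h2 : Continuous fun ω : E n × E n => ∑ l, k l • A (a l • ω.1 + b l • ω.2) :=
    continuous_finsetSum _ fun l _ => (hA.comp (h1 l)).const_smul (k l)
  exact h2.matrix_det

theorem t5_det_bound {δ C : ℝ} {g : E n → E n} {A : E n → Mat n} (h : Nice δ C g A)
    (a b k : ι → ℝ) (x y : E n) :
    |t5det A a b k x y| ≤ (Nat.factorial n : ℝ) * (∑ l, |k l| * C) ^ n := by
  have h1 := Matrix.det_le (A := ∑ l, k l • A (pt a b x y l)) (abv := AbsoluteValue.abs)
    (x := ∑ l, |k l| * C) (by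
      intro i j
      rw [Matrix.sum_apply]
      refine (Finset.abs_sum_le_sum_abs _ _).trans (Finset.sum_le_sum fun l _ => ?_)
      rw [Matrix.smul_apply, smul_eq_mul, abs_mul]
      exact mul_le_mul_of_nonneg_left (h.entry _ _ _) (abs_nonneg _))
  simpa [t5det, nsmul_eq_mul] using h1

theorem t5_g_cont {δ C : ℝ} {g : E n → E n} {A : E n → Mat n} (h : Nice δ C g A) :
    Continuous g :=
  continuous_iff_continuousAt.2 fun x => (h.deriv x).continuousAt

theorem t5_F_cont {Z : Type*} [TopologicalSpace Z] (ε : ℝ) {X Y : Z → E n} (hX : Continuous X)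
    (hY : Continuous Y) : Continuous fun z => t5F ε (X z) (Y z) := by
  unfold t5F
  fun_prop

theorem t5_lin_cont {Z : Type*} [TopologicalSpace Z] (p q : ℝ) {X Y : Z → E n}
    (hX : Continuous X) (hY : Continuous Y) : Continuous fun z => p • X z + q • Y z := by
  fun_prop

/-- the integrand -/
noncomputable def t5f (ε : ℝ) (g : E n → E n) (A : E n → Mat n) (a b k : ι → ℝ) (p q : ℝ)
    (x y : E n) : ℂ :=
  t5F ε (p • x - q • y) (p • Gx g a b x y + q • Gy g a b x y) * ((t5det A a b k x y : ℝ) : ℂ)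

theorem t5_f_cont {δ C : ℝ} {g : E n → E n} {A : E n → Mat n} (h : Nice δ C g A)
    (ε : ℝ) (a b k : ι → ℝ) (p q : ℝ) :
    Continuous fun ω : E n × E n => t5f ε g A a b k p q ω.1 ω.2 := by
  have hg := t5_g_cont h
  have h1 : ∀ l, Continuous fun ω : E n × E n => a l • ω.1 + b l • ω.2 := fun l => by fun_prop
  have h2 : Continuous fun ω : E n × E n => Gx g a b ω.1 ω.2 :=
    continuous_finsetSum _ fun l _ => (hg.comp (h1 l)).const_smul (a l)
  have h3 : Continuous fun ω : E n × E n => Gy g a b ω.1 ω.2 :=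
    continuous_finsetSum _ fun l _ => (hg.comp (h1 l)).const_smul (b l)
  have h4 : Continuous fun ω : E n × E n => p • ω.1 - q • ω.2 := by fun_prop
  have h5 := t5_lin_cont p q h2 h3
  have h7 := t5_F_cont ε h4 h5
  have h8 : Continuous fun ω : E n × E n => ((t5det A a b k ω.1 ω.2 : ℝ) : ℂ) :=
    Complex.continuous_ofReal.comp (t5_det_cont h.cont a b k)
  exact h7.mul h8

theorem t5_gauss_int (n : ℕ) {c : ℝ} (hc : 0 < c) (M : ℝ) :
    Integrable (fun ω : E n × E n => M * Real.exp (-c * (‖ω.1‖ ^ 2 + ‖ω.2‖ ^ 2))) := by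
  have h1 := t4_integrable_real n hc
  have h2 := (h1.mul_prod h1).const_mul M
  rw [← Measure.volume_eq_prod] at h2
  refine h2.congr (Filter.Eventually.of_forall fun ω => ?_)
  simp only
  rw [← Real.exp_add, mul_add]

theorem t5_integral_affine (n : ℕ) {p : ℝ} (hp : 0 < p) (z : E n) (G : E n → ℂ) :
    ∫ y, G y = ((p : ℂ) ^ n) * ∫ ξ : E n, G (z - p • ξ) := by
  have h1 := Measure.integral_comp_smul (volume : Measure (E n)) (fun w => G (z - w)) p
  rw [integral_sub_left_eq_self G volume z, finrank_euclideanSpace_fin] at h1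
  rw [h1, abs_of_pos (by positivity), Complex.real_smul]
  push_cast
  rw [← mul_assoc, mul_inv_cancel₀, one_mul]
  exact pow_ne_zero _ (by exact_mod_cast hp.ne')

/-- T5 from the change of variables of T1. -/
theorem T5_of {A : E n → Mat n} {g : E n → E n} {δ C : ℝ} (h : Nice δ C g A)
    (hT1 : ∀ (c d : ι → ℝ) (e : ι → E n), (∀ l, 0 < c l * d l) → ∀ F : E n → ℂ,
      ∫ x : E n, F (∑ l, d l • g (c l • x + e l)) *
        (((∑ l, (c l * d l) • A (c l • x + e l)).det : ℝ) : ℂ) = ∫ v, F v)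
    {a b : ι → ℝ} {ε κ : ℝ} (hε : 0 < ε)
    (hκ : ∀ l, 0 < a l ^ 2 + b l ^ 2 + 2 * Real.cosh κ * (a l * b l))
    {c' K' : ℝ} (hc' : 0 < c')
    (hb : ∀ x y : E n, (phase ε g a b (κ * Complex.I) x y).re ≤ K' - c' * (‖x‖ ^ 2 + ‖y‖ ^ 2)) :
    ∫ ω : E n × E n, Complex.exp (phase ε g a b (κ * Complex.I) ω.1 ω.2) *
        detf A a b (κ * Complex.I) ω.1 ω.2
      = ∫ ω : E n × E n, Complex.exp
          (-((ε : ℂ) / 2) * ((‖ω.1‖ ^ 2 + ‖ω.2‖ ^ 2 : ℝ) : ℂ)
            + Complex.I * ((⟪ω.1, ω.2⟫ : ℝ) : ℂ)) := by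
  set p := Real.exp (-κ / 2) with hp
  set q := Real.exp (κ / 2) with hq
  have hp0 : 0 < p := Real.exp_pos _
  have hq0 : 0 < q := Real.exp_pos _
  have hpq : p * q = 1 := by
    rw [hp, hq, ← Real.exp_add]; simp [neg_div]
  have hpp : p * p = Real.exp (-κ) := by
    rw [hp, ← Real.exp_add]; congr 1; ring
  have hqq : q * q = Real.exp κ := by
    rw [hq, ← Real.exp_add]; congr 1; ring
  set k : ι → ℝ := fun l => a l ^ 2 + b l ^ 2 + 2 * Real.cosh κ * (a l * b l) with hk
  have hcosh : 2 * Real.cosh κ = p * p + q * q := by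
    rw [hpp, hqq, Real.cosh_eq]; ring
  -- the integrand
  have hf : ∀ x y : E n, Complex.exp (phase ε g a b (κ * Complex.I) x y) *
        detf A a b (κ * Complex.I) x y = t5f ε g A a b k p q x y := by
    intro x y
    rw [t5_phase, t5_det, t5f]
  simp_rw [hf]
  set M : ℝ := Real.exp K' * ((Nat.factorial n : ℝ) * (∑ l, |k l| * C) ^ n) with hM
  have hbd : ∀ x y : E n, ‖t5f ε g A a b k p q x y‖ ≤
      M * Real.exp (-c' * (‖x‖ ^ 2 + ‖y‖ ^ 2)) := by
    intro x y
    rw [t5f, norm_mul, ← t5_phase, Complex.norm_exp, Complex.norm_real, Real.norm_eq_abs]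
    calc Real.exp (phase ε g a b (κ * Complex.I) x y).re * |t5det A a b k x y|
        ≤ Real.exp (K' - c' * (‖x‖ ^ 2 + ‖y‖ ^ 2)) *
          ((Nat.factorial n : ℝ) * (∑ l, |k l| * C) ^ n) := by
          refine mul_le_mul (Real.exp_le_exp.2 (hb x y)) (t5_det_bound h a b k x y)
            (abs_nonneg _) (Real.exp_pos _).le
      _ = M * Real.exp (-c' * (‖x‖ ^ 2 + ‖y‖ ^ 2)) := by
          rw [hM, show K' - c' * (‖x‖ ^ 2 + ‖y‖ ^ 2) = K' + (-c' * (‖x‖ ^ 2 + ‖y‖ ^ 2)) by ring,
            Real.exp_add]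
          ring
  have hM0 : 0 ≤ M := by
    have := (norm_nonneg _).trans (hbd 0 0)
    simpa using this
  have hcont := t5_f_cont h ε a b k p q
  have hint : Integrable (fun ω : E n × E n => t5f ε g A a b k p q ω.1 ω.2) :=
    (t5_gauss_int n hc' M).mono' hcont.aestronglyMeasurable
      (Filter.Eventually.of_forall fun ω => hbd ω.1 ω.2)
  -- Fubini
  have s1 : ∫ ω : E n × E n, t5f ε g A a b k p q ω.1 ω.2 =
      ∫ x : E n, ∫ y : E n, t5f ε g A a b k p q x y := by
    rw [Measure.volume_eq_prod] at hint ⊢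
    exact integral_prod _ hint
  -- substitution in the inner integral
  have s2 : ∀ x : E n, ∫ y : E n, t5f ε g A a b k p q x y =
      ((p : ℂ) ^ n) * ∫ ξ : E n, t5f ε g A a b k p q x ((p * p) • x - p • ξ) := fun x =>
    t5_integral_affine n hp0 _ _
  -- swap
  set L : ℝ := 1 + 2 * (p * p + q * q) with hL
  have hL0 : 0 < L := by positivity
  have hint2 : Integrable (fun ω : E n × E n =>
      t5f ε g A a b k p q ω.1 ((p * p) • ω.1 - p • ω.2)) := by
    refine (t5_gauss_int n (div_pos hc' hL0) M).mono' ?_ ?_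
    · have h1 : Continuous fun ω : E n × E n => (ω.1, (p * p) • ω.1 - p • ω.2) := by fun_prop
      have h2 := hcont.comp h1
      exact h2.aestronglyMeasurable
    · refine Filter.Eventually.of_forall fun ω => (hbd _ _).trans ?_
      refine mul_le_mul_of_nonneg_left (Real.exp_le_exp.2 ?_) hM0
      obtain ⟨x, ξ⟩ := ω
      simp only
      set y : E n := (p * p) • x - p • ξ with hy
      have hξ : ξ = p • x - q • y := by
        rw [hy, smul_sub, smul_smul, smul_smul]
        rw [show q * (p * p) = p by linear_combination p * hpq,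
          show q * p = 1 by linear_combination hpq, one_smul]
        abel
      have hn1 : ‖ξ‖ ≤ p * ‖x‖ + q * ‖y‖ := by
        rw [hξ]
        refine (norm_sub_le _ _).trans (le_of_eq ?_)
        rw [norm_smul, norm_smul, Real.norm_of_nonneg hp0.le, Real.norm_of_nonneg hq0.le]
      have hn2 : ‖ξ‖ ^ 2 ≤ 2 * (p * p + q * q) * (‖x‖ ^ 2 + ‖y‖ ^ 2) := by
        have h0 : ‖ξ‖ ^ 2 ≤ (p * ‖x‖ + q * ‖y‖) ^ 2 := pow_le_pow_left₀ (norm_nonneg _) hn1 2
        nlinarith [sq_nonneg (p * ‖x‖ - q * ‖y‖), sq_nonneg (p * ‖y‖), sq_nonneg (q * ‖x‖)]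
      have hn3 : ‖x‖ ^ 2 + ‖ξ‖ ^ 2 ≤ L * (‖x‖ ^ 2 + ‖y‖ ^ 2) := by
        rw [hL]
        nlinarith [sq_nonneg ‖y‖]
      rw [neg_mul, neg_mul, neg_le_neg_iff, div_mul_eq_mul_div, div_le_iff₀ hL0]
      nlinarith [mul_le_mul_of_nonneg_left hn3 hc'.le]
  have s3 : ∫ x : E n, ∫ ξ : E n, t5f ε g A a b k p q x ((p * p) • x - p • ξ) =
      ∫ ξ : E n, ∫ x : E n, t5f ε g A a b k p q x ((p * p) • x - p • ξ) := by
    refine integral_integral_swap ?_
    rw [Measure.volume_eq_prod] at hint2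
    exact hint2
  -- the change of variables of T1
  have s4 : ∀ ξ : E n, ((p : ℂ) ^ n) * ∫ x : E n, t5f ε g A a b k p q x ((p * p) • x - p • ξ) =
      ∫ v : E n, t5F ε ξ v := by
    intro ξ
    rw [← hT1 (fun l => a l + p * p * b l) (fun l => p * a l + q * b l)
      (fun l => -(p * b l) • ξ) (fun l => by
        have := mul_pos hp0 (hκ l)
        rw [hcosh] at this
        have e : (a l + p * p * b l) * (p * a l + q * b l) =
            p * (a l ^ 2 + b l ^ 2 + (p * p + q * q) * (a l * b l)) := by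
          linear_combination (p * b l ^ 2 - q * a l * b l) * hpq
        rw [e]
        exact this) (fun v => t5F ε ξ v), ← integral_const_mul]
    refine integral_congr_ae (Filter.Eventually.of_forall fun x => ?_)
    beta_reduce
    have epk : ∀ l, (a l + p * p * b l) * (p * a l + q * b l) = p * k l := by
      intro l
      rw [hk]
      simp only
      rw [hcosh]
      linear_combination (p * b l ^ 2 - q * a l * b l) * hpq
    have ept : ∀ l, pt a b x ((p * p) • x - p • ξ) l =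
        (a l + p * p * b l) • x + -(p * b l) • ξ := by
      intro l
      rw [pt]
      module
    have edet : (∑ l, ((a l + p * p * b l) * (p * a l + q * b l)) •
        A ((a l + p * p * b l) • x + -(p * b l) • ξ)).det =
        p ^ n * t5det A a b k x ((p * p) • x - p • ξ) := by
      have hd := Matrix.det_smul (∑ l, k l • A (pt a b x ((p * p) • x - p • ξ) l)) p
      rw [Fintype.card_fin] at hd
      rw [t5det, ← hd, Finset.smul_sum]
      congr 1
      refine Finset.sum_congr rfl fun l _ => ?_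
      rw [ept, epk, smul_smul]
    have eX : p • x - q • ((p * p) • x - p • ξ) = ξ := by
      rw [smul_sub, smul_smul, smul_smul, show q * (p * p) = p by linear_combination p * hpq,
          show q * p = 1 by linear_combination hpq, one_smul]
      abel
    have eY : p • Gx g a b x ((p * p) • x - p • ξ) + q • Gy g a b x ((p * p) • x - p • ξ) =
        ∑ l, (p * a l + q * b l) • g ((a l + p * p * b l) • x + -(p * b l) • ξ) := by
      rw [Gx, Gy, Finset.smul_sum, Finset.smul_sum, ← Finset.sum_add_distrib]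
      refine Finset.sum_congr rfl fun l _ => ?_
      rw [ept, smul_smul, smul_smul, ← add_smul]
    rw [t5f, eX, eY, edet]
    push_cast
    ring
  have hT4 := (T4_gauss n hε).1
  rw [s1]
  simp_rw [s2]
  rw [integral_const_mul, s3, ← integral_const_mul]
  simp_rw [s4]
  rw [Measure.volume_eq_prod] at hT4 ⊢
  rw [integral_prod _ hT4]
  rfl

/-- T5. The real regime `χ = iκ`: change of variables. -/
theorem T5_real {δ C c₀ : ℝ} {g : E n → E n} {A : E n → Mat n} (h : Nice δ C g A) {a b : ι → ℝ}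
    (_hab : Good c₀ a b) [Nonempty ι] {ε κ : ℝ} (hε : 0 < ε)
    (hκ : ∀ l, 0 < a l ^ 2 + b l ^ 2 + 2 * Real.cosh κ * (a l * b l))
    {c' K' : ℝ} (hc' : 0 < c')
    (hb : ∀ x y : E n, (phase ε g a b (κ * Complex.I) x y).re ≤ K' - c' * (‖x‖ ^ 2 + ‖y‖ ^ 2)) :
    ∫ ω : E n × E n, Complex.exp (phase ε g a b (κ * Complex.I) ω.1 ω.2) *
        detf A a b (κ * Complex.I) ω.1 ω.2
      = ∫ ω : E n × E n, Complex.exp
          (-((ε : ℂ) / 2) * ((‖ω.1‖ ^ 2 + ‖ω.2‖ ^ 2 : ℝ) : ℂ)
            + Complex.I * ((⟪ω.1, ω.2⟫ : ℝ) : ℂ)) :=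
  T5_of h (fun c d e hcd => (T1_map h c d e hcd).2.2.2.1) hε hκ hc' hb

end Pool.Agent.H706R2.Mah
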